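import Mathlib
import Pool.Agent.H23.TriamA

set_option autoImplicit false

namespace Pool.Agent.Results.MP_371ff7_co.Counter
open Pool.Agent.H23.Triam

theorem result : ¬ ∀ (V : Type) [Fintype V] (G : SimpleGraph V), IsMedian G →
    ∀ x y, Diametral G x y → ∃ z, Triametral G x y z :=
  fun h => r1.2 (h _ _ m1 _ _ r1.1)

end Pool.Agent.Results.MP_371ff7_co.Counter
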